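import Mathlib
import Pool.Agent.LR.SDefs
import Pool.Agent.LR.Final

/-!
# No admissible subgroup of genus two has a continuous equivariant map to `PML`

`MCG` is the mapping class group of the closed oriented surface of genus two, `F` the Veech group of the
double regular pentagon (generated by the two multitwists `δ`, `δ'` about the chain `c₁, c₂, c₃, c₄`), `ι` the
hyperelliptic involution, `PML` the space of projective measured laminations.

`A` is a subgroup with exactly one cusp (`F = A · ⟨δ, ι⟩`; `⟨δ, ι⟩` is the stabiliser of the cusp of `δ` in `F`),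
`δA ∈ A` an `F`-conjugate of some `δ^m ι^e`, `m ≠ 0`, `φ` an arbitrary mapping class such that
`A ∩ φ A φ⁻¹ ≤ ⟨δA⟩`, and `G` a group which contains `A` and `φ A φ⁻¹` and acts on the circle
`OnePoint ℝ = ∂ ℍ²` such that every non-trivial element acts as a hyperbolic Möbius transformation.
(Every admissible `G` of genus two, with the action of the surface group `G ≅ π₁(S₄)` on the circle at
infinity, satisfies this.) Then there is no continuous `G`-equivariant map from the circle to `PML`.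
-/

namespace Pool.Agent.Results.MP_33f4db_gt.EveryAdmissible

open Pool.Agent.LRS

/-- a hyperbolic Möbius transformation of the circle `OnePoint ℝ` -/
def IsHyperbolic (σ : OnePoint ℝ → OnePoint ℝ) : Prop :=
  ∃ M : GL (Fin 2) ℝ, Matrix.det (M : Matrix (Fin 2) (Fin 2) ℝ) = 1 ∧
    2 < |Matrix.trace (M : Matrix (Fin 2) (Fin 2) ℝ)| ∧ ∀ x : OnePoint ℝ, σ x = M • x

/-- No continuous equivariant boundary map for any admissible subgroup of genus two. -/
theorem result (A G : Subgroup MCG) (φ δA : MCG)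
    (hcusp : ∀ x ∈ F, ∃ k e : ℤ, x * δ ^ k * ι ^ e ∈ A)
    (hδA : ∃ h ∈ F, ∃ m e : ℤ, m ≠ 0 ∧ δA = h * (δ ^ m * ι ^ e) * h⁻¹) (hδA' : δA ∈ A)
    (hint : ∀ x ∈ A, ∀ y ∈ A, x = φ * y * φ⁻¹ → x ∈ Subgroup.zpowers δA)
    (hAG : ∀ x ∈ A, x ∈ G ∧ φ * x * φ⁻¹ ∈ G)
    [MulAction G (OnePoint ℝ)] (hyp : ∀ g : G, g ≠ 1 → IsHyperbolic (fun x => g • x)) :
    ¬ ∃ f : OnePoint ℝ → PML, Continuous f ∧
      ∀ (α : ModT) (hα : cls α ∈ G) (x : OnePoint ℝ), f ((⟨cls α, hα⟩ : G) • x) = PML.act α (f x) := by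
  refine @Pool.Agent.LR.final A G φ δA hcusp hδA hδA' ?_ (fun x hx => (hAG x hx).1) ?_
    ‹MulAction G (OnePoint ℝ)› ?_
  · rintro x ⟨hx, y, hy, hxy⟩
    exact hint x hx y hy hxy.symm
  · rintro x ⟨y, hy, rfl⟩
    exact (hAG y hy).2
  · intro g hg
    obtain ⟨M, h1, h2, h3⟩ := hyp g hg
    exact ⟨M, h1, h2, h3⟩

end Pool.Agent.Results.MP_33f4db_gt.EveryAdmissible
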