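import Pool.Agent.VSB.StMain

/-!
# An admissible amalgam of two Veech surface groups without equivariant boundary map

Full negative answer to Q1, in genus two. The definitions are in `Pool/Agent/VSB/St.lean` (namespace
`Pool.Agent.VSB.St`) and `Pool/Agent/VSB/MBase.lean` (namespace `Pool.Agent.VSB.M`); the surface is the double
pentagon `ξ₂`.
-/

set_option autoImplicit false

namespace Pool.Agent.Results.MP_33f4db_gt.NoBoundaryMap

open Pool.Agent.VSB.St

/-- There is an admissible subgroup `G = ⟨A, φ A φ⁻¹⟩` of the mapping class group of the closed surface of genus two
for which no continuous `G`-equivariant map from the circle at infinity to `PML` exists. -/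
theorem result : ∃ (A : Subgroup Mod) (δ φ : Mod), IsVeechSurf A δ ∧ Admissible A δ φ ∧
    NoMap (GG A φ) := main

end Pool.Agent.Results.MP_33f4db_gt.NoBoundaryMap
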